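import Pool.Agent.E8helper13.TW.Abs4
import Pool.Agent.E8helper1.TW.Stm

/-!
# Project TW, piece DIM: the dimension of the invariants does not change in the limit
-/

set_option autoImplicit false

namespace Pool.Agent.E8helper13.TW

open Matrix Module Filter Topology
open Pool.Agent.E8helper1.TX Pool.Agent.E8helper1.TW
open scoped Kronecker

variable {n : Type} [Fintype n] [DecidableEq n] {m : ℕ}

/-- The index set of operators. -/
abbrev QQ (n : Type) (m : ℕ) : Type := (Fin m → n) × (Fin m → n)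

/-- The matrix of `X ↦ [y, X]`. -/
noncomputable def RR (y : Matrix n n ℂ) (m : ℕ) : Matrix (QQ n m) (QQ n m) ℂ :=
  (1 : Matrix (Fin m → n) (Fin m → n) ℂ) ⊗ₖ dpow y m -
    (dpow y m)ᵀ ⊗ₖ (1 : Matrix (Fin m → n) (Fin m → n) ℂ)

/-- The matrix of `X ↦ g X g'`. -/
noncomputable def TT (g g' : Matrix n n ℂ) (m : ℕ) : Matrix (QQ n m) (QQ n m) ℂ :=
  (tpow g' m)ᵀ ⊗ₖ tpow g m

theorem RR_vec (y : Matrix n n ℂ) (X : Op n m) :
    RR y m *ᵥ vec X = vec (dpow y m * X - X * dpow y m) := by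
  rw [RR, Matrix.sub_mulVec, kronecker_mulVec_vec, kronecker_mulVec_vec, transpose_one,
    transpose_transpose, Matrix.mul_one, Matrix.one_mul]
  rfl

theorem TT_vec (g g' : Matrix n n ℂ) (X : Op n m) :
    TT g g' m *ᵥ vec X = vec (tpow g m * X * tpow g' m) := by
  rw [TT, kronecker_mulVec_vec, transpose_transpose]

theorem vec_of (v : QQ n m → ℂ) : vec (Matrix.of fun i j => v (j, i) : Op n m) = v := by
  funext p
  rfl

theorem ext_vec {M N : Matrix (QQ n m) (QQ n m) ℂ}
    (h : ∀ X : Op n m, M *ᵥ vec X = N *ᵥ vec X) : M = N := by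
  have h1 : ∀ v, M *ᵥ v = N *ᵥ v := fun v => by
    rw [← vec_of v]
    exact h _
  ext p r
  have h2 := congrFun (h1 (Pi.single r 1)) p
  rwa [Matrix.mulVec_single_one, Matrix.mulVec_single_one] at h2

theorem RR_comm (y z : Matrix n n ℂ) :
    RR (y * z - z * y) m = RR y m * RR z m - RR z m * RR y m := by
  apply ext_vec
  intro X
  rw [Matrix.sub_mulVec, ← Matrix.mulVec_mulVec, ← Matrix.mulVec_mulVec, RR_vec, RR_vec, RR_vec,
    RR_vec, RR_vec, Pool.Agent.E8helper56.TX.dpow_comm, ← Matrix.vec_sub]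
  congr 1
  noncomm_ring

theorem RR_add (y z : Matrix n n ℂ) : RR (y + z) m = RR y m + RR z m := by
  apply ext_vec
  intro X
  rw [Matrix.add_mulVec, RR_vec, RR_vec, RR_vec, Pool.Agent.E8helper56.TX.dpow_add,
    ← Matrix.vec_add]
  congr 1
  noncomm_ring

theorem RR_smul (c : ℂ) (y : Matrix n n ℂ) : RR (c • y) m = c • RR y m := by
  apply ext_vec
  intro X
  rw [Matrix.smul_mulVec, RR_vec, RR_vec, Pool.Agent.E8helper56.TX.dpow_smul,
    ← Matrix.vec_smul]
  congr 1
  rw [Matrix.smul_mul, Matrix.mul_smul, smul_sub]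

theorem RR_star (y : Matrix n n ℂ) : (RR y m)ᴴ = RR yᴴ m := by
  rw [RR, RR, Matrix.conjTranspose_sub, Matrix.conjTranspose_kronecker,
    Matrix.conjTranspose_kronecker, Matrix.conjTranspose_one, Pool.Agent.E8helper56.TX.dpow_star]
  rfl

theorem TT_RR (g g' y : Matrix n n ℂ) (h : g * g' = 1) :
    TT g g' m * RR y m * TT g' g m = RR (g * y * g') m := by
  have hP : tpow g m * tpow g' m = 1 := by
    rw [Pool.Agent.E8helper56.TX.tpow_mul, h, Pool.Agent.E8helper56.TX.tpow_one']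
  apply ext_vec
  intro X
  rw [← Matrix.mulVec_mulVec, ← Matrix.mulVec_mulVec, TT_vec, RR_vec, TT_vec, RR_vec,
    ← Pool.Agent.E8helper56.TX.tpow_dpow g g' y h]
  congr 1
  calc tpow g m * (dpow y m * (tpow g' m * X * tpow g m) -
        tpow g' m * X * tpow g m * dpow y m) * tpow g' m
      = tpow g m * dpow y m * tpow g' m * X * (tpow g m * tpow g' m) -
        (tpow g m * tpow g' m) * X * (tpow g m * dpow y m * tpow g' m) := by noncomm_ring
    _ = _ := by rw [hP, Matrix.mul_one, Matrix.one_mul]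

theorem TT_mul (g g' : Matrix n n ℂ) (h : g * g' = 1) : TT g g' m * TT g' g m = 1 := by
  have hP : tpow g m * tpow g' m = 1 := by
    rw [Pool.Agent.E8helper56.TX.tpow_mul, h, Pool.Agent.E8helper56.TX.tpow_one']
  apply ext_vec
  intro X
  rw [← Matrix.mulVec_mulVec, TT_vec, TT_vec, Matrix.one_mulVec]
  congr 1
  calc tpow g m * (tpow g' m * X * tpow g m) * tpow g' m
      = (tpow g m * tpow g' m) * X * (tpow g m * tpow g' m) := by noncomm_ring
    _ = X := by rw [hP, Matrix.mul_one, Matrix.one_mul]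

/-- Operators as vectors. -/
noncomputable def vl (n : Type) (m : ℕ) : Op n m ≃ₗ[ℂ] (QQ n m → ℂ) where
  toFun := vec
  invFun v := Matrix.of fun i j => v (j, i)
  map_add' _ _ := Matrix.vec_add _ _
  map_smul' _ _ := Matrix.vec_smul _ _
  left_inv _ := rfl
  right_inv v := by funext p; rfl

theorem vl_apply (A : Op n m) : vl n m A = vec A := rfl

theorem cmul {μ : ℕ} {E : Matrix (QQ n m) (Fin μ) ℂ} (M : Matrix (QQ n m) (QQ n m) ℂ)
    {N : Matrix (QQ n m) (QQ n m) ℂ} (hN : N * E = E * (Eᴴ * N * E)) :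
    (Eᴴ * M * E) * (Eᴴ * N * E) = Eᴴ * (M * N) * E := by
  calc (Eᴴ * M * E) * (Eᴴ * N * E) = Eᴴ * M * (E * (Eᴴ * N * E)) := by
        simp only [Matrix.mul_assoc]
    _ = Eᴴ * M * (N * E) := by rw [← hN]
    _ = _ := by simp only [Matrix.mul_assoc]

theorem finrank_inv {μ d : ℕ} (W : Submodule ℂ (Op n m)) {E : Matrix (QQ n m) (Fin μ) ℂ}
    (hE1 : Eᴴ * E = 1) (hE2 : LinearMap.range E.mulVecLin = W.map (vl n m).toLinearMap)
    (z : Fin d → Matrix n n ℂ) (hz : ∀ i, RR (z i) m * E = E * (Eᴴ * RR (z i) m * E)) :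
    finrank ℂ ↥(W ⊓ CL (Set.range z) m) =
      finrank ℂ ↥(⨅ i, LinearMap.ker (Eᴴ * RR (z i) m * E).mulVecLin) := by
  let Φ : (Fin μ → ℂ) →ₗ[ℂ] Op n m := (vl n m).symm.toLinearMap ∘ₗ E.mulVecLin
  have hinjE : Function.Injective E.mulVecLin := by
    intro u v huv
    have h1 : Eᴴ *ᵥ (E *ᵥ u) = Eᴴ *ᵥ (E *ᵥ v) := congrArg (fun t => Eᴴ *ᵥ t) huv
    rwa [Matrix.mulVec_mulVec, Matrix.mulVec_mulVec, hE1, Matrix.one_mulVec,
      Matrix.one_mulVec] at h1
  have hinj : Function.Injective Φ := (vl n m).symm.injective.comp hinjE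
  have hΦ : ∀ v, vec (Φ v) = E *ᵥ v := fun v => (vl n m).apply_symm_apply _
  have hmap : (⨅ i, LinearMap.ker (Eᴴ * RR (z i) m * E).mulVecLin).map Φ =
      W ⊓ CL (Set.range z) m := by
    ext A
    constructor
    · rintro ⟨v, hv, rfl⟩
      have hv' : ∀ i, (Eᴴ * RR (z i) m * E) *ᵥ v = 0 := fun i =>
        (Submodule.mem_iInf _).1 hv i
      refine ⟨?_, ?_⟩
      · have h1 : E.mulVecLin v ∈ W.map (vl n m).toLinearMap := hE2.le ⟨v, rfl⟩
        obtain ⟨A, hA, hA2⟩ := h1
        have h2 : Φ v = A := by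
          show (vl n m).symm (E.mulVecLin v) = A
          rw [← hA2]
          exact (vl n m).symm_apply_apply A
        rw [h2]
        exact hA
      · rintro _ ⟨i, rfl⟩
        have h1 : RR (z i) m *ᵥ vec (Φ v) = 0 := by
          rw [hΦ, Matrix.mulVec_mulVec, hz i, ← Matrix.mulVec_mulVec, hv', Matrix.mulVec_zero]
        rw [RR_vec] at h1
        have h2 : dpow (z i) m * Φ v - Φ v * dpow (z i) m = 0 := (vl n m).injective (by
          rw [vl_apply, h1, map_zero])
        exact (sub_eq_zero.1 h2).symm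
    · rintro ⟨hA1, hA2⟩
      have h1 : vec A ∈ LinearMap.range E.mulVecLin := by
        rw [hE2]
        exact ⟨A, hA1, rfl⟩
      obtain ⟨v, hv⟩ := h1
      have hv0 : E *ᵥ v = vec A := hv
      have h3 : Φ v = A := (vl n m).injective (by rw [vl_apply, vl_apply, hΦ, hv0])
      refine ⟨v, ?_, h3⟩
      show v ∈ (⨅ i, LinearMap.ker (Eᴴ * RR (z i) m * E).mulVecLin)
      rw [Submodule.mem_iInf]
      intro i
      rw [LinearMap.mem_ker, Matrix.mulVecLin_apply]
      have h4 : A * dpow (z i) m = dpow (z i) m * A := hA2 (z i) ⟨i, rfl⟩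
      rw [← Matrix.mulVec_mulVec, hv0, ← Matrix.mulVec_mulVec, RR_vec, h4, sub_self]
      show Eᴴ *ᵥ (vl n m 0) = 0
      rw [map_zero, Matrix.mulVec_zero]
  rw [← hmap]
  exact ((Submodule.equivMapOfInjective Φ hinj _).finrank_eq).symm

/-- **Piece DIM**. -/
theorem t_DIM (hNIL : S_NIL) : S_DIM := by
  intro n _ _ C d x hxC hxli hss D m W hW1 hW2
  -- commutation with `C`
  have hginv : ∀ k, ∀ c ∈ C, (D.g k)⁻¹ * c = c * (D.g k)⁻¹ := by
    intro k c hc
    have h1 := D.g_comm k c hc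
    have hu := D.g_unit k
    calc (D.g k)⁻¹ * c = (D.g k)⁻¹ * (c * (D.g k * (D.g k)⁻¹)) := by
          rw [Matrix.mul_nonsing_inv _ hu, Matrix.mul_one]
      _ = (D.g k)⁻¹ * (c * D.g k) * (D.g k)⁻¹ := by simp only [Matrix.mul_assoc]
      _ = ((D.g k)⁻¹ * D.g k) * c * (D.g k)⁻¹ := by rw [← h1]; simp only [Matrix.mul_assoc]
      _ = c * (D.g k)⁻¹ := by rw [Matrix.nonsing_inv_mul _ hu, Matrix.one_mul]
  have hconj : ∀ k j, ∀ c ∈ C, (D.g k * x j * (D.g k)⁻¹) * c = c * (D.g k * x j * (D.g k)⁻¹) := by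
    intro k j c hc
    calc (D.g k * x j * (D.g k)⁻¹) * c = D.g k * x j * ((D.g k)⁻¹ * c) := by
          simp only [Matrix.mul_assoc]
      _ = D.g k * (x j * c) * (D.g k)⁻¹ := by rw [hginv k c hc]; simp only [Matrix.mul_assoc]
      _ = (D.g k * c) * x j * (D.g k)⁻¹ := by rw [hxC j c hc]; simp only [Matrix.mul_assoc]
      _ = c * (D.g k * x j * (D.g k)⁻¹) := by rw [D.g_comm k c hc]; simp only [Matrix.mul_assoc]
  have huC : ∀ i, ∀ c ∈ C, D.u i * c = c * D.u i := by
    intro i c hc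
    have h1 := (D.lim i).mul_const c
    have h2 := (D.lim i).const_mul c
    have h3 : ∀ k, (∑ j, D.a k i j • (D.g k * x j * (D.g k)⁻¹)) * c =
        c * (∑ j, D.a k i j • (D.g k * x j * (D.g k)⁻¹)) := by
      intro k
      rw [Finset.sum_mul, Finset.mul_sum]
      refine Finset.sum_congr rfl fun j _ => ?_
      rw [smul_mul_assoc, mul_smul_comm, hconj k j c hc]
    simp only [h3] at h1
    exact tendsto_nhds_unique h1 h2
  -- an orthonormal basis of `W`
  obtain ⟨μ, hμ⟩ : ∃ μ, finrank ℂ (W.map (vl n m).toLinearMap) = μ := ⟨_, rfl⟩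
  obtain ⟨E, hE1, hE2⟩ := exists_onb (W.map (vl n m).toLinearMap) hμ
  have stR : ∀ y : Matrix n n ℂ, (∀ c ∈ C, y * c = c * y) →
      RR y m * E = E * (Eᴴ * RR y m * E) := by
    intro y hy
    refine stable_factor _ _ hE1 fun v hv => ?_
    rw [hE2] at hv ⊢
    obtain ⟨A, hA, rfl⟩ := hv
    exact ⟨_, hW1 y hy A hA, (RR_vec y A).symm⟩
  have stT : ∀ g : Matrix n n ℂ, IsUnit g.det → (∀ c ∈ C, g * c = c * g) →
      TT g g⁻¹ m * E = E * (Eᴴ * TT g g⁻¹ m * E) := by
    intro g hg hgC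
    refine stable_factor _ _ hE1 fun v hv => ?_
    rw [hE2] at hv ⊢
    obtain ⟨A, hA, rfl⟩ := hv
    exact ⟨_, hW2 g hg hgC A hA, (TT_vec g g⁻¹ A).symm⟩
  have stT' : ∀ k, TT (D.g k)⁻¹ (D.g k) m * E = E * (Eᴴ * TT (D.g k)⁻¹ (D.g k) m * E) := by
    intro k
    have h1 := stT (D.g k)⁻¹ (by
      rw [Matrix.det_nonsing_inv]
      exact (D.g_unit k).ringInverse) (hginv k)
    rwa [Matrix.nonsing_inv_nonsing_inv _ (D.g_unit k)] at h1
  -- the compressed representation
  let cR : Matrix n n ℂ →ₗ[ℂ] Matrix (Fin μ) (Fin μ) ℂ :=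
    { toFun := fun y => Eᴴ * RR y m * E
      map_add' := fun y z => by rw [RR_add, Matrix.mul_add, Matrix.add_mul]
      map_smul' := fun c y => by
        rw [RR_smul, Matrix.mul_smul, Matrix.smul_mul, RingHom.id_apply] }
  have hcR : ∀ y, cR y = Eᴴ * RR y m * E := fun _ => rfl
  have hcRc : Continuous cR := LinearMap.continuous_of_finiteDimensional cR
  have hcRstar : ∀ y, (cR y)ᴴ = cR yᴴ := by
    intro y
    rw [hcR, hcR, Matrix.conjTranspose_mul, Matrix.conjTranspose_mul,
      Matrix.conjTranspose_conjTranspose, RR_star, Matrix.mul_assoc]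
  have hcRbr : ∀ y z : Matrix n n ℂ, (∀ c ∈ C, y * c = c * y) → (∀ c ∈ C, z * c = c * z) →
      cR (y * z - z * y) = cR y * cR z - cR z * cR y := by
    intro y z hy hz
    rw [hcR, hcR, hcR, cmul _ (stR z hz), cmul _ (stR y hy), RR_comm, Matrix.mul_sub,
      Matrix.sub_mul]
  have hcRconj : ∀ k j, (Eᴴ * TT (D.g k) (D.g k)⁻¹ m * E) * cR (x j) *
      (Eᴴ * TT (D.g k)⁻¹ (D.g k) m * E) = cR (D.g k * x j * (D.g k)⁻¹) := by
    intro k j
    rw [hcR, hcR, cmul _ (stR _ (hxC j)), cmul _ (stT' k),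
      TT_RR _ _ _ (Matrix.mul_nonsing_inv _ (D.g_unit k))]
  -- the structure constants of `u` and `x`
  have hs : ∀ i, ∃ s : Fin d → ℂ, ∑ l, s l • D.u l = (D.u i)ᴴ := fun i =>
    Submodule.mem_span_range_iff_exists_fun ℂ |>.1 (D.star i)
  choose s hs using hs
  have hlie : ∀ l i, ∃ A : Fin d → ℂ, ∑ p, A p • x p = x l * x i - x i * x l := fun l i =>
    Submodule.mem_span_range_iff_exists_fun ℂ |>.1
      (hss.lie _ (Submodule.subset_span ⟨l, rfl⟩) _ (Submodule.subset_span ⟨i, rfl⟩))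
  choose A hA using hlie
  have hB : (Matrix.of fun i j => (x i * x j).trace : Matrix (Fin d) (Fin d) ℂ).det ≠ 0 :=
    det_ne_zero_of x hxli hss.nondeg
  have key := abs_dim (fun i => cR (x i)) (fun i => cR (D.u i))
    (fun k => Eᴴ * TT (D.g k) (D.g k)⁻¹ m * E) (fun k => Eᴴ * TT (D.g k)⁻¹ (D.g k) m * E)
    (by
      intro k
      show (Eᴴ * TT (D.g k)⁻¹ (D.g k) m * E) * (Eᴴ * TT (D.g k) (D.g k)⁻¹ m * E) = 1
      rw [cmul _ (stT _ (D.g_unit k) (D.g_comm k)),
        TT_mul _ _ (Matrix.nonsing_inv_mul _ (D.g_unit k)), Matrix.mul_one, hE1])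
    D.a D.a_det
    (by
      intro i
      have h1 := (hcRc.tendsto (D.u i)).comp (D.lim i)
      refine h1.congr fun k => ?_
      show cR (∑ j, D.a k i j • (D.g k * x j * (D.g k)⁻¹)) = _
      rw [map_sum]
      refine Finset.sum_congr rfl fun j _ => ?_
      rw [map_smul, hcRconj])
    (Matrix.of fun i j => (x i * x j).trace) (Matrix.of fun i j => (D.u i * D.u j).trace) hB
    (by
      have h1 : ∀ k, D.a k * (Matrix.of fun i j => (x i * x j).trace) * (D.a k)ᵀ =
          Matrix.of fun i j => ((∑ p, D.a k i p • (D.g k * x p * (D.g k)⁻¹)) *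
            (∑ q, D.a k j q • (D.g k * x q * (D.g k)⁻¹))).trace := by
        intro k
        refine (trace_change (fun p => D.g k * x p * (D.g k)⁻¹) x (D.a k) fun p q => ?_).symm
        calc ((D.g k * x p * (D.g k)⁻¹) * (D.g k * x q * (D.g k)⁻¹)).trace
            = (D.g k * (x p * ((D.g k)⁻¹ * D.g k) * x q * (D.g k)⁻¹)).trace := by
              congr 1; simp only [Matrix.mul_assoc]
          _ = ((x p * ((D.g k)⁻¹ * D.g k) * x q * (D.g k)⁻¹) * D.g k).trace :=
              Matrix.trace_mul_comm _ _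
          _ = (x p * ((D.g k)⁻¹ * D.g k) * x q * ((D.g k)⁻¹ * D.g k)).trace := by
              congr 1; simp only [Matrix.mul_assoc]
          _ = (x p * x q).trace := by
              rw [Matrix.nonsing_inv_mul _ (D.g_unit k), Matrix.mul_one, Matrix.mul_one]
      simp only [h1]
      refine tendsto_pi_nhds.2 fun i => tendsto_pi_nhds.2 fun j => ?_
      have e1 := (D.lim i).mul (D.lim j)
      have e2 : Continuous fun X : Matrix n n ℂ => X.trace := continuous_id.matrix_trace
      exact (e2.tendsto _).comp e1)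
    (Matrix.of s) D.lam D.lam_pos
    (by
      intro i
      show (cR (D.u i))ᴴ = _
      rw [hcRstar, ← hs i, map_sum]
      exact Finset.sum_congr rfl fun l _ => map_smul _ _ _)
    (by
      refine dual_basis _ _ _ D.lam_pos ?_ ?_
      · ext i j
        rw [Matrix.transpose_apply, Matrix.of_apply, Matrix.of_apply, Matrix.trace_mul_comm]
      · ext i j
        rw [Matrix.mul_apply, Matrix.smul_apply, Matrix.one_apply]
        have h1 := D.orth i j
        rw [← hs j, Finset.mul_sum, Matrix.trace_sum] at h1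
        rw [smul_eq_mul, mul_ite, mul_one, mul_zero, ← h1]
        refine Finset.sum_congr rfl fun l _ => ?_
        rw [mul_smul_comm, Matrix.trace_smul, smul_eq_mul, mul_comm]
        rfl)
    (by
      intro l
      refine casimir_comm _ (Matrix.of (A l)) hB _ _ ?_ ?_
      · intro i
        show cR (x l) * cR (x i) - cR (x i) * cR (x l) = _
        rw [← hcRbr _ _ (hxC l) (hxC i), ← hA l i, map_sum]
        exact Finset.sum_congr rfl fun p _ => map_smul _ _ _
      · ext i j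
        rw [Matrix.add_apply, Matrix.mul_apply, Matrix.mul_apply, Matrix.zero_apply]
        have h1 : ∑ p, (Matrix.of (A l)) i p * (Matrix.of fun i j => (x i * x j).trace) p j =
            ((x l * x i - x i * x l) * x j).trace := by
          rw [← hA l i, Finset.sum_mul, Matrix.trace_sum]
          refine Finset.sum_congr rfl fun p _ => ?_
          rw [smul_mul_assoc, Matrix.trace_smul, smul_eq_mul]
          rfl
        have h2 : ∑ p, (Matrix.of fun i j => (x i * x j).trace) i p * (Matrix.of (A l))ᵀ p j =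
            (x i * (x l * x j - x j * x l)).trace := by
          rw [← hA l j, Finset.mul_sum, Matrix.trace_sum]
          refine Finset.sum_congr rfl fun p _ => ?_
          rw [mul_smul_comm, Matrix.trace_smul, smul_eq_mul, mul_comm]
          rfl
        rw [h1, h2, ← Matrix.trace_add]
        have h3 : (x l * x i - x i * x l) * x j + x i * (x l * x j - x j * x l) =
            x l * (x i * x j) - (x i * x j) * x l := by noncomm_ring
        rw [h3, Matrix.trace_sub, Matrix.trace_mul_comm, sub_self])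
    (by
      intro ν Q hQ hρ hn
      have h1 : ∀ y : Matrix n n ℂ, y ∈ Set.range x → cR y * Q = Q * (Qᴴ * cR y * Q) := by
        rintro _ ⟨i, rfl⟩
        exact hρ i
      let r : Matrix n n ℂ →ₗ[ℂ] Matrix (Fin ν) (Fin ν) ℂ :=
        { toFun := fun y => Qᴴ * cR y * Q
          map_add' := fun y z => by rw [map_add, Matrix.mul_add, Matrix.add_mul]
          map_smul' := fun c y => by
            rw [map_smul, Matrix.mul_smul, Matrix.smul_mul, RingHom.id_apply] }
      refine hNIL n d x hxli hss (Fin ν) r ?_ hn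
      intro i j
      have e : ∀ i j, (Qᴴ * cR (x i) * Q) * (Qᴴ * cR (x j) * Q) =
          Qᴴ * (cR (x i) * cR (x j)) * Q := by
        intro i j
        calc (Qᴴ * cR (x i) * Q) * (Qᴴ * cR (x j) * Q)
            = Qᴴ * cR (x i) * (Q * (Qᴴ * cR (x j) * Q)) := by simp only [Matrix.mul_assoc]
          _ = Qᴴ * cR (x i) * (cR (x j) * Q) := by rw [← h1 _ ⟨j, rfl⟩]
          _ = _ := by simp only [Matrix.mul_assoc]
      show Qᴴ * cR (x i * x j - x j * x i) * Q = (Qᴴ * cR (x i) * Q) * (Qᴴ * cR (x j) * Q) -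
        (Qᴴ * cR (x j) * Q) * (Qᴴ * cR (x i) * Q)
      rw [e, e, hcRbr _ _ (hxC i) (hxC j), Matrix.mul_sub, Matrix.sub_mul])
  rw [finrank_inv W hE1 hE2 x (fun i => stR _ (hxC i)),
    finrank_inv W hE1 hE2 D.u (fun i => stR _ (huC i))]
  exact key

end Pool.Agent.E8helper13.TW
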