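import Mathlib

/-!
# Limits of conjugates and Casimir elements: matrix lemmas
-/

set_option autoImplicit false

namespace Pool.Agent.E8helper13.TW

open Matrix Module Filter Topology

variable {w : Type} [Fintype w] [DecidableEq w] {d : ℕ}

/-- The quadratic expression `∑ M i j X i X j`. -/
noncomputable def qd (M : Matrix (Fin d) (Fin d) ℂ) (X : Fin d → Matrix w w ℂ) : Matrix w w ℂ :=
  ∑ i, ∑ j, M i j • (X i * X j)

theorem qd_change (M a : Matrix (Fin d) (Fin d) ℂ) (X : Fin d → Matrix w w ℂ) :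
    qd M (fun i => ∑ p, a i p • X p) = qd (aᵀ * M * a) X := by
  have h1 : qd M (fun i => ∑ p, a i p • X p) =
      ∑ i, ∑ j, ∑ p, ∑ q, (M i j * a i p * a j q) • (X p * X q) := by
    unfold qd
    refine Finset.sum_congr rfl fun i _ => Finset.sum_congr rfl fun j _ => ?_
    rw [Finset.sum_mul, Finset.smul_sum]
    refine Finset.sum_congr rfl fun p _ => ?_
    rw [Finset.mul_sum, Finset.smul_sum]
    refine Finset.sum_congr rfl fun q _ => ?_
    rw [smul_mul_smul_comm, smul_smul, mul_assoc]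
  have h2 : qd (aᵀ * M * a) X = ∑ p, ∑ q, ∑ j, ∑ i, (M i j * a i p * a j q) • (X p * X q) := by
    unfold qd
    refine Finset.sum_congr rfl fun p _ => Finset.sum_congr rfl fun q _ => ?_
    rw [Matrix.mul_apply, Finset.sum_smul]
    refine Finset.sum_congr rfl fun j _ => ?_
    rw [Matrix.mul_apply, Finset.sum_mul, Finset.sum_smul]
    refine Finset.sum_congr rfl fun i _ => ?_
    rw [Matrix.transpose_apply]
    congr 1
    ring
  rw [h1, h2]
  -- reorder: i j p q -> p q j i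
  calc ∑ i, ∑ j, ∑ p, ∑ q, (M i j * a i p * a j q) • (X p * X q)
      = ∑ i, ∑ p, ∑ j, ∑ q, (M i j * a i p * a j q) • (X p * X q) :=
        Finset.sum_congr rfl fun i _ => Finset.sum_comm
    _ = ∑ p, ∑ i, ∑ j, ∑ q, (M i j * a i p * a j q) • (X p * X q) := Finset.sum_comm
    _ = ∑ p, ∑ i, ∑ q, ∑ j, (M i j * a i p * a j q) • (X p * X q) :=
        Finset.sum_congr rfl fun p _ => Finset.sum_congr rfl fun i _ => Finset.sum_comm
    _ = ∑ p, ∑ q, ∑ i, ∑ j, (M i j * a i p * a j q) • (X p * X q) :=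
        Finset.sum_congr rfl fun p _ => Finset.sum_comm
    _ = ∑ p, ∑ q, ∑ j, ∑ i, (M i j * a i p * a j q) • (X p * X q) :=
        Finset.sum_congr rfl fun p _ => Finset.sum_congr rfl fun q _ => Finset.sum_comm

theorem qd_conj (M : Matrix (Fin d) (Fin d) ℂ) (X : Fin d → Matrix w w ℂ) {G G' : Matrix w w ℂ}
    (h : G' * G = 1) : qd M (fun i => G * X i * G') = G * qd M X * G' := by
  unfold qd
  rw [Finset.mul_sum, Finset.sum_mul]
  refine Finset.sum_congr rfl fun i _ => ?_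
  rw [Finset.mul_sum, Finset.sum_mul]
  refine Finset.sum_congr rfl fun j _ => ?_
  rw [mul_smul_comm, smul_mul_assoc]
  congr 1
  calc G * X i * G' * (G * X j * G') = G * X i * (G' * G) * X j * G' := by noncomm_ring
    _ = G * (X i * X j) * G' := by rw [h]; noncomm_ring

omit [DecidableEq w] in
theorem qd_tendsto {M : ℕ → Matrix (Fin d) (Fin d) ℂ} {M' : Matrix (Fin d) (Fin d) ℂ}
    {X : ℕ → Fin d → Matrix w w ℂ} {X' : Fin d → Matrix w w ℂ}
    (hM : Tendsto M atTop (𝓝 M')) (hX : ∀ i, Tendsto (fun k => X k i) atTop (𝓝 (X' i))) :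
    Tendsto (fun k => qd (M k) (X k)) atTop (𝓝 (qd M' X')) := by
  unfold qd
  refine tendsto_finsetSum _ fun i _ => tendsto_finsetSum _ fun j _ => ?_
  refine Tendsto.smul ?_ ((hX i).mul (hX j))
  exact (tendsto_pi_nhds.1 (tendsto_pi_nhds.1 hM i) j)

theorem charpoly_lim {A : ℕ → Matrix w w ℂ} {A' : Matrix w w ℂ} (hA : Tendsto A atTop (𝓝 A'))
    {P : Polynomial ℂ} (hP : ∀ k, (A k).charpoly = P) : A'.charpoly = P := by
  refine Polynomial.funext fun t => ?_
  have h1 : Tendsto (fun k => (Matrix.scalar w t - A k).det) atTop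
      (𝓝 ((Matrix.scalar w t - A').det)) := by
    have hc : Continuous fun X : Matrix w w ℂ => (Matrix.scalar w t - X).det :=
      (continuous_const.sub continuous_id).matrix_det
    exact (hc.tendsto A').comp hA
  have h2 : ∀ k, (Matrix.scalar w t - A k).det = P.eval t := fun k => by
    rw [← Matrix.eval_charpoly, hP]
  rw [Matrix.eval_charpoly]
  simp only [h2] at h1
  exact tendsto_nhds_unique h1 tendsto_const_nhds |>.symm ▸ rfl

theorem charpoly_conj (A : Matrix w w ℂ) {G G' : Matrix w w ℂ} (h : G' * G = 1) :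
    (G * A * G').charpoly = A.charpoly := by
  rw [Matrix.charpoly_mul_comm, ← mul_assoc, h, one_mul]

theorem inv_tendsto {A : ℕ → Matrix w w ℂ} {A' : Matrix w w ℂ} (hA : Tendsto A atTop (𝓝 A'))
    (h : A'.det ≠ 0) : Tendsto (fun k => (A k)⁻¹) atTop (𝓝 A'⁻¹) := by
  have h1 : ContinuousAt Ring.inverse A'.det := by
    have : (Ring.inverse : ℂ → ℂ) = Inv.inv := by
      ext x; exact Ring.inverse_eq_inv x
    rw [this]
    exact continuousAt_inv₀ h
  exact (continuousAt_matrix_inv A' h1).tendsto.comp hA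

omit [DecidableEq w] in
/-- A submodule has an orthonormal basis. -/
theorem exists_onb {ν : ℕ} (N : Submodule ℂ (w → ℂ)) (hN : finrank ℂ N = ν) :
    ∃ Q : Matrix w (Fin ν) ℂ, Qᴴ * Q = 1 ∧ LinearMap.range Q.mulVecLin = N := by
  let e : EuclideanSpace ℂ w ≃ₗ[ℂ] (w → ℂ) := WithLp.linearEquiv 2 ℂ (w → ℂ)
  let N' : Submodule ℂ (EuclideanSpace ℂ w) := N.map e.symm.toLinearMap
  have hN' : finrank ℂ N' = ν := by
    rw [← hN]
    exact LinearEquiv.finrank_map_eq e.symm N
  let b : OrthonormalBasis (Fin ν) ℂ N' := (stdOrthonormalBasis ℂ N').reindex (finCongr hN')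
  let Q : Matrix w (Fin ν) ℂ := fun p j => (b j : EuclideanSpace ℂ w) p
  have hQ : ∀ (u : Fin ν → ℂ), Q.mulVecLin u = e ((∑ j, u j • b j : N') : EuclideanSpace ℂ w) := by
    intro u
    ext p
    rw [Matrix.mulVecLin_apply, Matrix.mulVec, dotProduct]
    have : e ((∑ j, u j • b j : N') : EuclideanSpace ℂ w) p =
        ∑ j, u j * (b j : EuclideanSpace ℂ w) p := by
      rw [Submodule.coe_sum]
      show (∑ j, ((u j • b j : N') : EuclideanSpace ℂ w)) p = _
      rw [WithLp.ofLp_sum]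
      simp
    rw [this]
    exact Finset.sum_congr rfl fun j _ => mul_comm _ _
  refine ⟨Q, ?_, ?_⟩
  · ext i j
    rw [Matrix.mul_apply, Matrix.one_apply]
    have h := orthonormal_iff_ite.1 b.orthonormal i j
    rw [← h, Submodule.coe_inner, PiLp.inner_apply]
    refine Finset.sum_congr rfl fun p _ => ?_
    rw [Matrix.conjTranspose_apply, RCLike.inner_apply, mul_comm]
    rfl
  · ext v
    constructor
    · rintro ⟨u, rfl⟩
      rw [hQ]
      obtain ⟨x, hx, hx'⟩ := (∑ j, u j • b j : N').2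
      rw [← hx']
      simpa using hx
    · intro hv
      have hv' : e.symm v ∈ N' := ⟨v, hv, rfl⟩
      refine ⟨fun j => b.repr ⟨e.symm v, hv'⟩ j, ?_⟩
      rw [hQ, b.sum_repr]
      simp


omit [DecidableEq w] in
theorem exists_factor {ν μ : ℕ} (A : Matrix w (Fin μ) ℂ) (Q : Matrix w (Fin ν) ℂ)
    (h : ∀ v, A.mulVecLin v ∈ LinearMap.range Q.mulVecLin) :
    ∃ X : Matrix (Fin ν) (Fin μ) ℂ, A = Q * X := by
  choose f hf using h
  refine ⟨Matrix.of fun i j => f (Pi.single j 1) i, ?_⟩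
  ext p j
  have h1 := congrFun (hf (Pi.single j 1)) p
  rw [Matrix.mulVecLin_apply, Matrix.mulVecLin_apply, Matrix.mulVec_single_one] at h1
  simpa [Matrix.mul_apply, Matrix.mulVec, dotProduct] using h1.symm

theorem stable_factor {ν : ℕ} (M : Matrix w w ℂ) (Q : Matrix w (Fin ν) ℂ) (hQ : Qᴴ * Q = 1)
    (h : ∀ v ∈ LinearMap.range Q.mulVecLin, M.mulVecLin v ∈ LinearMap.range Q.mulVecLin) :
    M * Q = Q * (Qᴴ * M * Q) := by
  obtain ⟨X, hX⟩ := exists_factor (M * Q) Q (fun v => by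
    rw [Matrix.mulVecLin_mul]
    exact h _ ⟨v, rfl⟩)
  rw [Matrix.mul_assoc Qᴴ, hX, ← Matrix.mul_assoc Qᴴ, hQ, Matrix.one_mul]

/-- An orthonormal basis of the image of the column space of `Q` under `G`. -/
theorem transport {ν : ℕ} (Q : Matrix w (Fin ν) ℂ) (hQ : Qᴴ * Q = 1) (G G' : Matrix w w ℂ)
    (h : G' * G = 1) : ∃ (Q2 : Matrix w (Fin ν) ℂ) (T S : Matrix (Fin ν) (Fin ν) ℂ),
      Q2ᴴ * Q2 = 1 ∧ Q2 = G * Q * T ∧ G * Q = Q2 * S ∧ T * S = 1 := by
  have hinj : Function.Injective (G * Q).mulVecLin := by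
    intro u v huv
    have h1 : (Qᴴ * G').mulVec ((G * Q).mulVec u) = (Qᴴ * G').mulVec ((G * Q).mulVec v) := by
      have := huv
      rw [Matrix.mulVecLin_apply, Matrix.mulVecLin_apply] at this
      rw [this]
    have h2 : (Qᴴ * G') * (G * Q) = 1 := by
      calc (Qᴴ * G') * (G * Q) = Qᴴ * (G' * G) * Q := by simp only [Matrix.mul_assoc]
        _ = 1 := by rw [h, Matrix.mul_one, hQ]
    rw [Matrix.mulVec_mulVec, Matrix.mulVec_mulVec, h2, Matrix.one_mulVec, Matrix.one_mulVec] at h1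
    exact h1
  have hfr : finrank ℂ (LinearMap.range (G * Q).mulVecLin) = ν := by
    rw [LinearMap.finrank_range_of_inj hinj]
    simp
  obtain ⟨Q2, h1, h2⟩ := exists_onb _ hfr
  obtain ⟨T, hT⟩ := exists_factor Q2 (G * Q) (fun v => by rw [← h2]; exact ⟨v, rfl⟩)
  obtain ⟨S, hS⟩ := exists_factor (G * Q) Q2 (fun v => by rw [h2]; exact ⟨v, rfl⟩)
  refine ⟨Q2, T, S, h1, hT, hS, ?_⟩
  have h3 : (Qᴴ * G') * (G * Q) = 1 := by
    calc (Qᴴ * G') * (G * Q) = Qᴴ * (G' * G) * Q := by simp only [Matrix.mul_assoc]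
      _ = 1 := by rw [h, Matrix.mul_one, hQ]
  calc T * S = ((Qᴴ * G') * (G * Q)) * (T * S) := by rw [h3, Matrix.one_mul]
    _ = (Qᴴ * G') * ((G * Q * T) * S) := by simp only [Matrix.mul_assoc]
    _ = (Qᴴ * G') * (G * Q) := by rw [← hT, ← hS]
    _ = 1 := h3

omit [DecidableEq w] in
/-- A sequence of orthonormal systems has a convergent subsequence. -/
theorem exists_subseq {ν : ℕ} (Q : ℕ → Matrix w (Fin ν) ℂ) (hQ : ∀ k, (Q k)ᴴ * Q k = 1) :
    ∃ (Q' : Matrix w (Fin ν) ℂ) (φ : ℕ → ℕ), StrictMono φ ∧ Tendsto (Q ∘ φ) atTop (𝓝 Q') := by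
  have hK : IsCompact (Set.univ.pi fun _ : w => Set.univ.pi fun _ : Fin ν =>
      Metric.closedBall (0 : ℂ) 1) :=
    isCompact_univ_pi fun _ => isCompact_univ_pi fun _ => isCompact_closedBall 0 1
  have hmem : ∀ k, Q k ∈ (Set.univ.pi fun _ : w => Set.univ.pi fun _ : Fin ν =>
      Metric.closedBall (0 : ℂ) 1) := by
    intro k p _ j _
    rw [mem_closedBall_zero_iff]
    have h1 := congrFun (congrFun (hQ k) j) j
    rw [Matrix.mul_apply, Matrix.one_apply_eq] at h1
    have h2 : ∑ q, ‖Q k q j‖ ^ 2 = 1 := by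
      have h3 : ∀ q, (Q k)ᴴ j q * Q k q j = ((‖Q k q j‖ ^ 2 : ℝ) : ℂ) := by
        intro q
        rw [Matrix.conjTranspose_apply]
        have := RCLike.conj_mul (Q k q j)
        push_cast
        exact this
      simp only [h3] at h1
      exact_mod_cast h1
    have h4 : ‖Q k p j‖ ^ 2 ≤ 1 := by
      rw [← h2]
      exact Finset.single_le_sum (f := fun q => ‖Q k q j‖ ^ 2) (fun q _ => by positivity)
        (Finset.mem_univ p)
    nlinarith [norm_nonneg (Q k p j)]
  obtain ⟨Q', _, φ, hφ, hl⟩ := hK.tendsto_subseq hmem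
  exact ⟨Q', φ, hφ, hl⟩

end Pool.Agent.E8helper13.TW
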