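import Pool.Agent.E8helper13.TW.Abs1

/-!
# Limits of conjugates and Casimir elements: the limit argument
-/

set_option autoImplicit false

namespace Pool.Agent.E8helper13.TW

open Matrix Module Filter Topology

variable {w : Type} [Fintype w] [DecidableEq w] {d : ℕ}

theorem trace_change {ι : Type} [Fintype ι] (X : Fin d → Matrix ι ι ℂ)
    (Y : Fin d → Matrix ι ι ℂ) (a : Matrix (Fin d) (Fin d) ℂ)
    (h : ∀ p q, (X p * X q).trace = (Y p * Y q).trace) :
    (Matrix.of fun i j => ((∑ p, a i p • X p) * (∑ q, a j q • X q)).trace) =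
      a * (Matrix.of fun i j => (Y i * Y j).trace) * aᵀ := by
  ext i j
  rw [Matrix.of_apply, Matrix.mul_apply, Finset.sum_mul, Matrix.trace_sum]
  have h1 : ∀ p, ((a i p • X p) * (∑ q, a j q • X q)).trace =
      ∑ q, a i p * (Y p * Y q).trace * a j q := by
    intro p
    rw [Finset.mul_sum, Matrix.trace_sum]
    refine Finset.sum_congr rfl fun q _ => ?_
    rw [smul_mul_smul_comm, Matrix.trace_smul, smul_eq_mul, h]
    ring
  simp only [h1]
  rw [Finset.sum_comm]
  refine Finset.sum_congr rfl fun q _ => ?_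
  rw [Matrix.mul_apply, Finset.sum_mul]
  rfl

theorem limit_nil {ν : ℕ} (ρ σ : Fin d → Matrix w w ℂ) (G G' : ℕ → Matrix w w ℂ)
    (hG : ∀ k, G' k * G k = 1)
    (a : ℕ → Matrix (Fin d) (Fin d) ℂ) (ha : ∀ k, (a k).det ≠ 0)
    (hlim : ∀ i, Tendsto (fun k => ∑ j, a k i j • (G k * ρ j * G' k)) atTop (𝓝 (σ i)))
    (B B' : Matrix (Fin d) (Fin d) ℂ) (hB' : B'.det ≠ 0)
    (hBlim : Tendsto (fun k => a k * B * (a k)ᵀ) atTop (𝓝 B'))
    (C C' : Matrix w w ℂ) (hC : Tendsto (fun k => G k * C * G' k) atTop (𝓝 C'))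
    (hker : ∀ (m : ℕ) (v : w → ℂ), (C' ^ m).mulVec v = 0 → ∀ i, (σ i).mulVec v = 0)
    (Q : Matrix w (Fin ν) ℂ) (hQ : Qᴴ * Q = 1)
    (hρ : ∀ i, ρ i * Q = Q * (Qᴴ * ρ i * Q)) (m : ℕ) (hCQ : C ^ m * Q = 0) :
    IsNilpotent (B⁻¹ * Matrix.of fun i j => ((Qᴴ * ρ i * Q) * (Qᴴ * ρ j * Q)).trace) := by
  choose Q2 T S h1 h2 h3 h4 using fun k => transport Q hQ (G k) (G' k) (hG k)
  obtain ⟨Q', φ, hφ, hl⟩ := exists_subseq Q2 h1
  have hφt : Tendsto φ atTop atTop := hφ.tendsto_atTop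
  obtain ⟨r, hr⟩ : ∃ r : Fin d → Matrix (Fin ν) (Fin ν) ℂ, ∀ i, r i = Qᴴ * ρ i * Q :=
    ⟨_, fun _ => rfl⟩
  obtain ⟨y, hy⟩ : ∃ y : ℕ → Fin d → Matrix w w ℂ,
      ∀ k i, y k i = ∑ j, a k i j • (G k * ρ j * G' k) := ⟨_, fun _ _ => rfl⟩
  have hylim : ∀ i, Tendsto (fun k => y k i) atTop (𝓝 (σ i)) := by
    intro i
    simp only [hy]
    exact hlim i
  have hR : ∀ k i, (Q2 k)ᴴ * y k i * Q2 k = ∑ p, a k i p • (S k * r p * T k) := by
    intro k i
    rw [hy, Matrix.mul_sum, Matrix.sum_mul]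
    refine Finset.sum_congr rfl fun p _ => ?_
    rw [Matrix.mul_smul, Matrix.smul_mul]
    congr 1
    have e1 : G k * ρ p * G' k * Q2 k = G k * ρ p * Q * T k := by
      calc G k * ρ p * G' k * Q2 k = G k * ρ p * G' k * (G k * Q * T k) := by rw [← h2]
        _ = G k * ρ p * (G' k * G k) * Q * T k := by simp only [Matrix.mul_assoc]
        _ = G k * ρ p * Q * T k := by rw [hG, Matrix.mul_one]
    calc (Q2 k)ᴴ * (G k * ρ p * G' k) * Q2 k = (Q2 k)ᴴ * (G k * ρ p * G' k * Q2 k) := by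
          simp only [Matrix.mul_assoc]
      _ = (Q2 k)ᴴ * (G k * ρ p * Q * T k) := by rw [e1]
      _ = (Q2 k)ᴴ * (G k * (ρ p * Q) * T k) := by simp only [Matrix.mul_assoc]
      _ = (Q2 k)ᴴ * (G k * (Q * (Qᴴ * ρ p * Q)) * T k) := by rw [← hρ]
      _ = (Q2 k)ᴴ * (G k * Q * (Qᴴ * ρ p * Q) * T k) := by simp only [Matrix.mul_assoc]
      _ = (Q2 k)ᴴ * (Q2 k * S k * (Qᴴ * ρ p * Q) * T k) := by rw [← h3]
      _ = ((Q2 k)ᴴ * Q2 k) * S k * (Qᴴ * ρ p * Q) * T k := by simp only [Matrix.mul_assoc]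
      _ = S k * r p * T k := by rw [h1, Matrix.one_mul, hr]
  have htr : ∀ k p q, ((S k * r p * T k) * (S k * r q * T k)).trace = (r p * r q).trace := by
    intro k p q
    calc ((S k * r p * T k) * (S k * r q * T k)).trace
        = (S k * (r p * (T k * S k) * r q * T k)).trace := by
          congr 1; simp only [Matrix.mul_assoc]
      _ = ((r p * (T k * S k) * r q * T k) * S k).trace := Matrix.trace_mul_comm _ _
      _ = (r p * (T k * S k) * r q * (T k * S k)).trace := by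
          congr 1; simp only [Matrix.mul_assoc]
      _ = (r p * r q).trace := by rw [h4, Matrix.mul_one, Matrix.mul_one]
  have hb : ∀ k, (Matrix.of fun i j => (((Q2 k)ᴴ * y k i * Q2 k) *
      ((Q2 k)ᴴ * y k j * Q2 k)).trace) =
      a k * (Matrix.of fun i j => (r i * r j).trace) * (a k)ᵀ := by
    intro k
    rw [← trace_change (fun p => S k * r p * T k) r (a k) (htr k)]
    ext i j
    rw [Matrix.of_apply, Matrix.of_apply, hR, hR]
  -- the limit of the bases is killed by a power of `C'`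
  have hCm : ∀ k, (G k * C * G' k) ^ m * Q2 k = 0 := by
    intro k
    have e1 : ∀ m' : ℕ, (G k * C * G' k) ^ m' * G k = G k * C ^ m' := by
      intro m'
      induction m' with
      | zero => simp
      | succ m' ih =>
        rw [pow_succ, pow_succ]
        calc (G k * C * G' k) ^ m' * (G k * C * G' k) * G k
            = ((G k * C * G' k) ^ m' * G k) * C * (G' k * G k) := by
              simp only [Matrix.mul_assoc]
          _ = G k * (C ^ m' * C) := by rw [ih, hG, Matrix.mul_one, Matrix.mul_assoc]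
    calc (G k * C * G' k) ^ m * Q2 k = (G k * C * G' k) ^ m * (G k * Q * T k) := by rw [← h2]
      _ = ((G k * C * G' k) ^ m * G k) * Q * T k := by simp only [Matrix.mul_assoc]
      _ = G k * (C ^ m * Q) * T k := by rw [e1]; simp only [Matrix.mul_assoc]
      _ = 0 := by rw [hCQ, Matrix.mul_zero, Matrix.zero_mul]
  have hmulc : Continuous fun p : Matrix w w ℂ × Matrix w (Fin ν) ℂ => p.1 * p.2 :=
    continuous_fst.matrix_mul continuous_snd
  have hC'Q : C' ^ m * Q' = 0 := by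
    have e1 : Tendsto (fun k => (G (φ k) * C * G' (φ k)) ^ m) atTop (𝓝 (C' ^ m)) :=
      (hC.comp hφt).pow m
    have e2 := (hmulc.tendsto (C' ^ m, Q')).comp (e1.prodMk_nhds hl)
    have e3 : ((fun p : Matrix w w ℂ × Matrix w (Fin ν) ℂ => p.1 * p.2) ∘
        fun k => ((G (φ k) * C * G' (φ k)) ^ m, (Q2 ∘ φ) k)) = fun _ => 0 := by
      funext k
      exact hCm (φ k)
    rw [e3] at e2
    exact (tendsto_nhds_unique e2 tendsto_const_nhds)
  have hσQ : ∀ i, σ i * Q' = 0 := by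
    intro i
    ext p j
    have e1 : (C' ^ m).mulVec (fun q => Q' q j) = 0 := by
      funext q
      exact congrFun (congrFun hC'Q q) j
    have e2 := congrFun (hker m _ e1 i) p
    exact e2
  have hcc : Continuous fun p : Matrix w w ℂ × Matrix w (Fin ν) ℂ => p.2ᴴ * p.1 * p.2 :=
    (continuous_snd.matrix_conjTranspose.matrix_mul continuous_fst).matrix_mul continuous_snd
  have hRlim : ∀ i, Tendsto (fun k => (Q2 (φ k))ᴴ * y (φ k) i * Q2 (φ k)) atTop (𝓝 0) := by
    intro i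
    have e1 := (hcc.tendsto (σ i, Q')).comp (((hylim i).comp hφt).prodMk_nhds hl)
    have e2 : Q'ᴴ * σ i * Q' = 0 := by
      rw [Matrix.mul_assoc, hσQ, Matrix.mul_zero]
    simp only [e2] at e1
    exact e1
  have hblim : Tendsto (fun k => a (φ k) * (Matrix.of fun i j => (r i * r j).trace) * (a (φ k))ᵀ)
      atTop (𝓝 (0 : Matrix (Fin d) (Fin d) ℂ)) := by
    simp only [← hb]
    refine tendsto_pi_nhds.2 fun i => tendsto_pi_nhds.2 fun j => ?_
    have e1 := (hRlim i).mul (hRlim j)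
    have e2 : Continuous fun X : Matrix (Fin ν) (Fin ν) ℂ => X.trace :=
      continuous_id.matrix_trace
    have e3 := (e2.tendsto _).comp e1
    rw [mul_zero, Matrix.trace_zero] at e3
    exact e3
  have hBi := inv_tendsto hBlim hB'
  have hprod := (hBi.comp hφt).mul hblim
  rw [mul_zero] at hprod
  have hcp : ∀ k, (((fun k => (a k * B * (a k)ᵀ)⁻¹) ∘ φ) k *
      (a (φ k) * (Matrix.of fun i j => (r i * r j).trace) * (a (φ k))ᵀ)).charpoly =
      (B⁻¹ * (Matrix.of fun i j => (r i * r j).trace)).charpoly := by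
    intro k
    show ((a (φ k) * B * (a (φ k))ᵀ)⁻¹ *
      (a (φ k) * (Matrix.of fun i j => (r i * r j).trace) * (a (φ k))ᵀ)).charpoly = _
    have hu : IsUnit (a (φ k)).det := isUnit_iff_ne_zero.2 (ha _)
    have hut : IsUnit ((a (φ k))ᵀ).det := by rw [Matrix.det_transpose]; exact hu
    have e1 : (a (φ k) * B * (a (φ k))ᵀ)⁻¹ *
        (a (φ k) * (Matrix.of fun i j => (r i * r j).trace) * (a (φ k))ᵀ) =
        ((a (φ k))ᵀ)⁻¹ * (B⁻¹ * (Matrix.of fun i j => (r i * r j).trace)) * (a (φ k))ᵀ := by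
      rw [Matrix.mul_inv_rev, Matrix.mul_inv_rev]
      calc ((a (φ k))ᵀ)⁻¹ * (B⁻¹ * (a (φ k))⁻¹) *
            (a (φ k) * (Matrix.of fun i j => (r i * r j).trace) * (a (φ k))ᵀ)
          = ((a (φ k))ᵀ)⁻¹ * (B⁻¹ * (((a (φ k))⁻¹ * a (φ k)) *
            (Matrix.of fun i j => (r i * r j).trace))) * (a (φ k))ᵀ := by
            simp only [Matrix.mul_assoc]
        _ = _ := by rw [Matrix.nonsing_inv_mul _ hu, Matrix.one_mul]
    rw [e1]
    exact charpoly_conj _ (Matrix.mul_nonsing_inv _ hut)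
  have hfin := charpoly_lim hprod hcp
  have hcp0 : (B⁻¹ * (Matrix.of fun i j => (r i * r j).trace)).charpoly = Polynomial.X ^ d := by
    rw [← hfin]
    have : (0 : Matrix (Fin d) (Fin d) ℂ).charpoly = Polynomial.X ^ d := by
      rw [Matrix.charpoly_zero]
      simp
    exact this
  have hnil : (B⁻¹ * (Matrix.of fun i j => (r i * r j).trace)) ^ d = 0 := by
    have := Matrix.aeval_self_charpoly (B⁻¹ * (Matrix.of fun i j => (r i * r j).trace))
    rw [hcp0] at this
    simpa using this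
  refine ⟨d, ?_⟩
  simp only [hr] at hnil
  exact hnil

end Pool.Agent.E8helper13.TW
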