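import Pool.Agent.E8helper13.TW.Abs2

/-!
# Limits of conjugates and Casimir elements: the dimension of the invariants
-/

set_option autoImplicit false

namespace Pool.Agent.E8helper13.TW

open Matrix Module Filter Topology

variable {w : Type} [Fintype w] [DecidableEq w] {d : ℕ}

open scoped ComplexOrder in
theorem mulVec_zero_of_sq {H : Matrix w w ℂ} (hH : Hᴴ = H) (v : w → ℂ)
    (h : (H * H) *ᵥ v = 0) : H *ᵥ v = 0 := by
  rw [← Matrix.conjTranspose_mul_self_mulVec_eq_zero, hH]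
  exact h

theorem mulVec_zero_of_pow {H : Matrix w w ℂ} (hH : Hᴴ = H) (v : w → ℂ) (m : ℕ)
    (h : (H ^ (m + 1)) *ᵥ v = 0) : H *ᵥ v = 0 := by
  induction m with
  | zero => simpa using h
  | succ m ih =>
    apply ih
    have h1 : (H * H) *ᵥ ((H ^ m) *ᵥ v) = 0 := by
      rw [Matrix.mulVec_mulVec]
      have : H * H * H ^ m = H ^ (m + 1 + 1) := by
        rw [pow_succ', pow_succ', Matrix.mul_assoc]
      rw [this]
      exact h
    have h2 := mulVec_zero_of_sq hH _ h1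
    rw [Matrix.mulVec_mulVec, ← pow_succ'] at h2
    exact h2

theorem qd_mulVec_zero (M : Matrix (Fin d) (Fin d) ℂ) (X : Fin d → Matrix w w ℂ) (v : w → ℂ)
    (h : ∀ i, X i *ᵥ v = 0) : qd M X *ᵥ v = 0 := by
  unfold qd
  rw [Matrix.sum_mulVec]
  refine Finset.sum_eq_zero fun i _ => ?_
  rw [Matrix.sum_mulVec]
  refine Finset.sum_eq_zero fun j _ => ?_
  rw [Matrix.smul_mulVec, ← Matrix.mulVec_mulVec, h j, Matrix.mulVec_zero, smul_zero]

theorem mem_gen (C : Matrix w w ℂ) (v : w → ℂ) :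
    v ∈ Module.End.maxGenEigenspace (Matrix.toLin' C) 0 ↔ ∃ k : ℕ, (C ^ k) *ᵥ v = 0 := by
  rw [Module.End.mem_maxGenEigenspace]
  simp only [zero_smul, sub_zero, ← Matrix.toLin'_pow, Matrix.toLin'_apply]

theorem finrank_gen (C : Matrix w w ℂ) :
    finrank ℂ (Module.End.maxGenEigenspace (Matrix.toLin' C) 0) = C.charpoly.natTrailingDegree := by
  rw [LinearMap.finrank_maxGenEigenspace_zero_eq, Matrix.charpoly_toLin']

theorem herm_ker (σ : Fin d → Matrix w w ℂ) (s : Matrix (Fin d) (Fin d) ℂ)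
    (hs : ∀ i, (σ i)ᴴ = ∑ l, s i l • σ l) (v : w → ℂ)
    (hv : (∑ i, σ i * (σ i)ᴴ) *ᵥ v = 0) : ∀ i, σ i *ᵥ v = 0 := by
  have h1 : ∑ i, star ((σ i)ᴴ *ᵥ v) ⬝ᵥ ((σ i)ᴴ *ᵥ v) = 0 := by
    have h2 : star v ⬝ᵥ ((∑ i, σ i * (σ i)ᴴ) *ᵥ v) = 0 := by rw [hv, dotProduct_zero]
    rw [Matrix.sum_mulVec, dotProduct_sum] at h2
    rw [← h2]
    refine Finset.sum_congr rfl fun i _ => ?_
    rw [Matrix.star_mulVec, Matrix.conjTranspose_conjTranspose, ← Matrix.dotProduct_mulVec,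
      Matrix.mulVec_mulVec]
  have h3 : ∀ i, star ((σ i)ᴴ *ᵥ v) ⬝ᵥ ((σ i)ᴴ *ᵥ v) =
      ((∑ p, ‖((σ i)ᴴ *ᵥ v) p‖ ^ 2 : ℝ) : ℂ) := by
    intro i
    rw [dotProduct]
    push_cast
    refine Finset.sum_congr rfl fun p _ => ?_
    exact RCLike.conj_mul _
  simp only [h3] at h1
  have h4 : ∑ i, ∑ p, ‖((σ i)ᴴ *ᵥ v) p‖ ^ 2 = 0 := by exact_mod_cast h1
  have h5 : ∀ i, (σ i)ᴴ *ᵥ v = 0 := by
    intro i
    have h6 := (Finset.sum_eq_zero_iff_of_nonneg (fun i _ => Finset.sum_nonneg fun p _ => by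
      positivity)).1 h4 i (Finset.mem_univ i)
    funext p
    have h7 := (Finset.sum_eq_zero_iff_of_nonneg (fun p _ => by positivity)).1 h6 p
      (Finset.mem_univ p)
    simpa using h7
  intro i
  have h6 : σ i = ∑ l, star (s i l) • (σ l)ᴴ := by
    rw [← Matrix.conjTranspose_conjTranspose (σ i), hs i, Matrix.conjTranspose_sum]
    exact Finset.sum_congr rfl fun l _ => Matrix.conjTranspose_smul _ _
  rw [h6, Matrix.sum_mulVec]
  refine Finset.sum_eq_zero fun l _ => ?_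
  rw [Matrix.smul_mulVec, h5, smul_zero]

theorem abs_dim (ρ σ : Fin d → Matrix w w ℂ) (G G' : ℕ → Matrix w w ℂ)
    (hG : ∀ k, G' k * G k = 1)
    (a : ℕ → Matrix (Fin d) (Fin d) ℂ) (ha : ∀ k, ‖(a k).det‖ = 1)
    (hlim : ∀ i, Tendsto (fun k => ∑ j, a k i j • (G k * ρ j * G' k)) atTop (𝓝 (σ i)))
    (B B' : Matrix (Fin d) (Fin d) ℂ) (hB : B.det ≠ 0)
    (hBlim : Tendsto (fun k => a k * B * (a k)ᵀ) atTop (𝓝 B'))
    (s : Matrix (Fin d) (Fin d) ℂ) (lam : ℝ) (hlam : 0 < lam)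
    (hs : ∀ i, (σ i)ᴴ = ∑ l, s i l • σ l)
    (hBs : B'⁻¹ = ((lam : ℂ)⁻¹) • s)
    (hcomm : ∀ l, Commute (ρ l) (qd B⁻¹ ρ))
    (hnil : ∀ (ν : ℕ) (Q : Matrix w (Fin ν) ℂ), Qᴴ * Q = 1 →
      (∀ i, ρ i * Q = Q * (Qᴴ * ρ i * Q)) →
      IsNilpotent (B⁻¹ * Matrix.of fun i j => ((Qᴴ * ρ i * Q) * (Qᴴ * ρ j * Q)).trace) →
      ∀ i, Qᴴ * ρ i * Q = 0) :
    finrank ℂ ↥(⨅ i, LinearMap.ker (ρ i).mulVecLin) =
      finrank ℂ ↥(⨅ i, LinearMap.ker (σ i).mulVecLin) := by
  have ha0 : ∀ k, (a k).det ≠ 0 := fun k h => by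
    have := ha k
    rw [h, norm_zero] at this
    exact one_ne_zero this.symm
  have hB' : B'.det ≠ 0 := by
    have h1 : Tendsto (fun k => ‖(a k * B * (a k)ᵀ).det‖) atTop (𝓝 ‖B'.det‖) :=
      (continuous_norm.tendsto _).comp
        (((continuous_id.matrix_det : Continuous fun X : Matrix (Fin d) (Fin d) ℂ =>
          X.det).tendsto B').comp hBlim)
    have h2 : ∀ k, ‖(a k * B * (a k)ᵀ).det‖ = ‖B.det‖ := by
      intro k
      rw [Matrix.det_mul, Matrix.det_mul, Matrix.det_transpose, norm_mul, norm_mul, ha k]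
      ring
    simp only [h2] at h1
    have h3 := tendsto_nhds_unique h1 tendsto_const_nhds
    intro h
    rw [h, norm_zero] at h3
    exact hB (norm_eq_zero.1 h3.symm)
  have hBi := inv_tendsto hBlim hB'
  have hC : Tendsto (fun k => G k * qd B⁻¹ ρ * G' k) atTop (𝓝 (qd B'⁻¹ σ)) := by
    have h1 := qd_tendsto (X := fun k i => ∑ j, a k i j • (G k * ρ j * G' k)) hBi hlim
    have h2 : ∀ k, qd (a k * B * (a k)ᵀ)⁻¹ (fun i => ∑ j, a k i j • (G k * ρ j * G' k)) =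
        G k * qd B⁻¹ ρ * G' k := by
      intro k
      have hu : IsUnit (a k).det := isUnit_iff_ne_zero.2 (ha0 _)
      have hut : IsUnit ((a k)ᵀ).det := by rw [Matrix.det_transpose]; exact hu
      rw [qd_change _ (a k) (fun j => G k * ρ j * G' k), ← qd_conj _ _ (hG k)]
      congr 1
      rw [Matrix.mul_inv_rev, Matrix.mul_inv_rev]
      calc (a k)ᵀ * (((a k)ᵀ)⁻¹ * (B⁻¹ * (a k)⁻¹)) * a k
          = ((a k)ᵀ * ((a k)ᵀ)⁻¹) * B⁻¹ * ((a k)⁻¹ * a k) := by simp only [Matrix.mul_assoc]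
        _ = B⁻¹ := by
          rw [Matrix.mul_nonsing_inv _ hut, Matrix.nonsing_inv_mul _ hu, Matrix.one_mul,
            Matrix.mul_one]
    simp only [h2] at h1
    exact h1
  obtain ⟨C, hCd⟩ : ∃ C, C = qd B⁻¹ ρ := ⟨_, rfl⟩
  obtain ⟨C', hC'd⟩ : ∃ C', C' = qd B'⁻¹ σ := ⟨_, rfl⟩
  rw [← hCd, ← hC'd] at hC
  have hC'eq : C' = (lam : ℂ)⁻¹ • ∑ i, σ i * (σ i)ᴴ := by
    rw [hC'd, hBs]
    unfold qd
    rw [Finset.smul_sum]
    refine Finset.sum_congr rfl fun i _ => ?_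
    rw [hs i, Finset.mul_sum, Finset.smul_sum]
    refine Finset.sum_congr rfl fun j _ => ?_
    rw [Matrix.smul_apply, smul_eq_mul, mul_smul_comm, smul_smul]
  have hlam0 : (lam : ℂ)⁻¹ ≠ 0 := inv_ne_zero (by exact_mod_cast hlam.ne')
  have hherm : C'ᴴ = C' := by
    rw [hC'eq, Matrix.conjTranspose_smul, Matrix.conjTranspose_sum]
    congr 1
    · simp
    · refine Finset.sum_congr rfl fun i _ => ?_
      rw [Matrix.conjTranspose_mul, Matrix.conjTranspose_conjTranspose]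
  have hker : ∀ (m : ℕ) (v : w → ℂ), (C' ^ m).mulVec v = 0 → ∀ i, (σ i).mulVec v = 0 := by
    intro m v hv
    rcases m with _ | m
    · have hv0 : v = 0 := by simpa using hv
      intro i
      rw [hv0, Matrix.mulVec_zero]
    · have h1 := mulVec_zero_of_pow hherm v m hv
      rw [hC'eq, Matrix.smul_mulVec] at h1
      exact herm_ker σ s hs v ((smul_eq_zero.1 h1).resolve_left hlam0)
  have hg' : Module.End.maxGenEigenspace (Matrix.toLin' C') 0 =
      ⨅ i, LinearMap.ker (σ i).mulVecLin := by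
    ext v
    rw [mem_gen, Submodule.mem_iInf]
    constructor
    · rintro ⟨k, hk⟩ i
      exact hker k v hk i
    · intro h
      refine ⟨1, ?_⟩
      rw [pow_one, hC'd]
      exact qd_mulVec_zero _ _ v h
  have hg : Module.End.maxGenEigenspace (Matrix.toLin' C) 0 =
      ⨅ i, LinearMap.ker (ρ i).mulVecLin := by
    apply le_antisymm
    · obtain ⟨ν, hν⟩ : ∃ ν, finrank ℂ (Module.End.maxGenEigenspace (Matrix.toLin' C) 0) = ν :=
        ⟨_, rfl⟩
      obtain ⟨Q, hQ1, hQ2⟩ := exists_onb (Module.End.maxGenEigenspace (Matrix.toLin' C) 0) hν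
      have hρ : ∀ i, ρ i * Q = Q * (Qᴴ * ρ i * Q) := by
        intro i
        refine stable_factor _ _ hQ1 fun v hv => ?_
        rw [hQ2] at hv ⊢
        have hc : Commute (Matrix.toLin' C) (Matrix.toLin' (ρ i)) := by
          have := (hcomm i).symm
          rw [← hCd] at this
          show Matrix.toLin' C * Matrix.toLin' (ρ i) = Matrix.toLin' (ρ i) * Matrix.toLin' C
          rw [Module.End.mul_eq_comp, Module.End.mul_eq_comp, ← Matrix.toLin'_mul,
            ← Matrix.toLin'_mul, this.eq]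
        exact Module.End.mapsTo_maxGenEigenspace_of_comm hc 0 hv
      have hCQ : C ^ (finrank ℂ (w → ℂ)) * Q = 0 := by
        have h1 : ∀ v ∈ Module.End.maxGenEigenspace (Matrix.toLin' C) 0,
            (C ^ (finrank ℂ (w → ℂ))) *ᵥ v = 0 := by
          intro v hv
          rw [Module.End.maxGenEigenspace_eq_genEigenspace_finrank,
            Module.End.mem_genEigenspace_nat] at hv
          simpa [← Matrix.toLin'_pow] using hv
        ext p j
        have h2 := congrFun (h1 (Q *ᵥ (Pi.single j 1)) (hQ2.le ⟨_, rfl⟩)) p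
        rw [Matrix.mulVec_mulVec, Matrix.mulVec_single_one] at h2
        exact h2
      have hn := limit_nil ρ σ G G' hG a ha0 hlim B B' hB' hBlim C C' hC hker Q hQ1 hρ _ hCQ
      have h0 := hnil _ Q hQ1 hρ hn
      intro v hv
      rw [← hQ2] at hv
      obtain ⟨u, rfl⟩ := hv
      rw [Submodule.mem_iInf]
      intro i
      rw [LinearMap.mem_ker, Matrix.mulVecLin_apply, Matrix.mulVecLin_apply,
        Matrix.mulVec_mulVec, hρ i, h0 i, Matrix.mul_zero, Matrix.zero_mulVec]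
    · intro v hv
      rw [Submodule.mem_iInf] at hv
      rw [mem_gen]
      refine ⟨1, ?_⟩
      rw [pow_one, hCd]
      exact qd_mulVec_zero _ _ v hv
  rw [← hg, ← hg', finrank_gen, finrank_gen,
    charpoly_lim hC (fun k => charpoly_conj C (hG k))]

end Pool.Agent.E8helper13.TW
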