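import Pool.Agent.E8helper13.TW.Abs3

/-!
# Casimir elements are invariant; dual bases
-/

set_option autoImplicit false

namespace Pool.Agent.E8helper13.TW

open Matrix Module Filter Topology

variable {w : Type} [Fintype w] [DecidableEq w] {d : ℕ}

omit [DecidableEq w] in
theorem qd_add (M N : Matrix (Fin d) (Fin d) ℂ) (X : Fin d → Matrix w w ℂ) :
    qd (M + N) X = qd M X + qd N X := by
  unfold qd
  rw [← Finset.sum_add_distrib]
  refine Finset.sum_congr rfl fun i _ => ?_
  rw [← Finset.sum_add_distrib]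
  refine Finset.sum_congr rfl fun j _ => ?_
  rw [Matrix.add_apply, add_smul]

omit [DecidableEq w] in
theorem qd_zero (X : Fin d → Matrix w w ℂ) : qd (0 : Matrix (Fin d) (Fin d) ℂ) X = 0 := by
  unfold qd
  simp

/-- The commutator with the quadratic expression. -/
theorem qd_bracket (M A : Matrix (Fin d) (Fin d) ℂ) (X : Fin d → Matrix w w ℂ) (Y : Matrix w w ℂ)
    (h : ∀ i, Y * X i - X i * Y = ∑ p, A i p • X p) :
    Y * qd M X - qd M X * Y = qd (Aᵀ * M + M * A) X := by
  rw [qd_add]
  have h1 : ∀ i j, Y * (X i * X j) - (X i * X j) * Y =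
      (∑ p, A i p • (X p * X j)) + ∑ p, A j p • (X i * X p) := by
    intro i j
    calc Y * (X i * X j) - (X i * X j) * Y = (Y * X i - X i * Y) * X j + X i * (Y * X j - X j * Y) := by
          noncomm_ring
      _ = (∑ p, A i p • (X p * X j)) + ∑ p, A j p • (X i * X p) := by
          rw [h, h, Finset.sum_mul, Finset.mul_sum]
          congr 1
          · exact Finset.sum_congr rfl fun p _ => smul_mul_assoc _ _ _
          · exact Finset.sum_congr rfl fun p _ => mul_smul_comm _ _ _
  have h2 : Y * qd M X - qd M X * Y = ∑ i, ∑ j, M i j • (Y * (X i * X j) - (X i * X j) * Y) := by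
    unfold qd
    rw [Finset.mul_sum, Finset.sum_mul, ← Finset.sum_sub_distrib]
    refine Finset.sum_congr rfl fun i _ => ?_
    rw [Finset.mul_sum, Finset.sum_mul, ← Finset.sum_sub_distrib]
    refine Finset.sum_congr rfl fun j _ => ?_
    rw [mul_smul_comm, smul_mul_assoc, smul_sub]
  rw [h2]
  simp only [h1, smul_add, Finset.sum_add_distrib]
  congr 1
  · -- ∑ i j p M i j A i p X p X j
    unfold qd
    calc ∑ i, ∑ j, M i j • ∑ p, A i p • (X p * X j)
        = ∑ i, ∑ j, ∑ p, (A i p * M i j) • (X p * X j) := by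
          refine Finset.sum_congr rfl fun i _ => Finset.sum_congr rfl fun j _ => ?_
          rw [Finset.smul_sum]
          exact Finset.sum_congr rfl fun p _ => by rw [smul_smul, mul_comm]
      _ = ∑ i, ∑ p, ∑ j, (A i p * M i j) • (X p * X j) :=
          Finset.sum_congr rfl fun i _ => Finset.sum_comm
      _ = ∑ p, ∑ i, ∑ j, (A i p * M i j) • (X p * X j) := Finset.sum_comm
      _ = ∑ p, ∑ j, ∑ i, (A i p * M i j) • (X p * X j) :=
          Finset.sum_congr rfl fun p _ => Finset.sum_comm
      _ = ∑ p, ∑ j, (Aᵀ * M) p j • (X p * X j) := by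
          refine Finset.sum_congr rfl fun p _ => Finset.sum_congr rfl fun j _ => ?_
          rw [Matrix.mul_apply, Finset.sum_smul]
          rfl
  · unfold qd
    calc ∑ i, ∑ j, M i j • ∑ p, A j p • (X i * X p)
        = ∑ i, ∑ j, ∑ p, (M i j * A j p) • (X i * X p) := by
          refine Finset.sum_congr rfl fun i _ => Finset.sum_congr rfl fun j _ => ?_
          rw [Finset.smul_sum]
          exact Finset.sum_congr rfl fun p _ => by rw [smul_smul]
      _ = ∑ i, ∑ p, ∑ j, (M i j * A j p) • (X i * X p) :=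
          Finset.sum_congr rfl fun i _ => Finset.sum_comm
      _ = ∑ i, ∑ p, (M * A) i p • (X i * X p) := by
          refine Finset.sum_congr rfl fun p _ => Finset.sum_congr rfl fun j _ => ?_
          rw [Matrix.mul_apply, Finset.sum_smul]

theorem casimir_comm (B A : Matrix (Fin d) (Fin d) ℂ) (hB : B.det ≠ 0) (X : Fin d → Matrix w w ℂ)
    (Y : Matrix w w ℂ) (h : ∀ i, Y * X i - X i * Y = ∑ p, A i p • X p)
    (hA : A * B + B * Aᵀ = 0) : Commute Y (qd B⁻¹ X) := by
  have hu : IsUnit B.det := isUnit_iff_ne_zero.2 hB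
  have h1 := qd_bracket B⁻¹ A X Y h
  have h2 : Aᵀ * B⁻¹ + B⁻¹ * A = 0 := by
    calc Aᵀ * B⁻¹ + B⁻¹ * A = (B⁻¹ * B) * (Aᵀ * B⁻¹) + B⁻¹ * A * (B * B⁻¹) := by
          rw [Matrix.nonsing_inv_mul _ hu, Matrix.mul_nonsing_inv _ hu, Matrix.one_mul,
            Matrix.mul_one]
      _ = B⁻¹ * (A * B + B * Aᵀ) * B⁻¹ := by noncomm_ring
      _ = 0 := by rw [hA, Matrix.mul_zero, Matrix.zero_mul]
  rw [h2, qd_zero] at h1
  exact sub_eq_zero.1 h1

/-- The dual basis. -/
theorem dual_basis (B s : Matrix (Fin d) (Fin d) ℂ) (lam : ℝ) (hlam : 0 < lam) (hsym : Bᵀ = B)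
    (h : B * sᵀ = (lam : ℂ) • (1 : Matrix (Fin d) (Fin d) ℂ)) : B⁻¹ = (lam : ℂ)⁻¹ • s := by
  have hl : (lam : ℂ) ≠ 0 := by exact_mod_cast hlam.ne'
  apply Matrix.inv_eq_left_inv
  have h1 : s * B = (lam : ℂ) • (1 : Matrix (Fin d) (Fin d) ℂ) := by
    have := congrArg Matrix.transpose h
    rw [Matrix.transpose_mul, Matrix.transpose_transpose, hsym, Matrix.transpose_smul,
      Matrix.transpose_one] at this
    exact this
  rw [Matrix.smul_mul, h1, smul_smul, inv_mul_cancel₀ hl, one_smul]

/-- A nondegenerate form has nonzero determinant. -/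
theorem det_ne_zero_of {ι : Type} [Fintype ι] (x : Fin d → Matrix ι ι ℂ)
    (hx : LinearIndependent ℂ x)
    (h : ∀ u ∈ Submodule.span ℂ (Set.range x),
      (∀ v ∈ Submodule.span ℂ (Set.range x), (u * v).trace = 0) → u = 0) :
    (Matrix.of fun i j => (x i * x j).trace : Matrix (Fin d) (Fin d) ℂ).det ≠ 0 := by
  intro h0
  obtain ⟨v, hv, hv2⟩ := Matrix.exists_vecMul_eq_zero_iff.2 h0
  apply hv
  have h1 : ∑ i, v i • x i = 0 := by
    apply h
    · exact Submodule.sum_mem _ fun i _ => Submodule.smul_mem _ _ (Submodule.subset_span ⟨i, rfl⟩)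
    · intro y hy
      induction hy using Submodule.span_induction with
      | mem y hy =>
        obtain ⟨j, rfl⟩ := hy
        have h2 := congrFun hv2 j
        rw [Finset.sum_mul, Matrix.trace_sum]
        rw [Matrix.vecMul, dotProduct] at h2
        refine Eq.trans (Finset.sum_congr rfl fun i _ => ?_) h2
        rw [smul_mul_assoc, Matrix.trace_smul, smul_eq_mul]
        rfl
      | zero => rw [mul_zero, Matrix.trace_zero]
      | add a b _ _ ha hb => rw [mul_add, Matrix.trace_add, ha, hb, add_zero]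
      | smul c a _ ha => rw [mul_smul_comm, Matrix.trace_smul, ha, smul_zero]
  funext i
  exact Fintype.linearIndependent_iff.1 hx v h1 i

end Pool.Agent.E8helper13.TW
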